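import Pool.Agent.V8H85.OJM.Surj

/-!
# Symmetric functions in odd Jucys-Murphy elements give the whole Hecke algebra of `(S_2n, H_n)`

For every `n`, the elements `F(J_1, J_3, ..., J_{2n-1}) * P_n` with `F` a symmetric polynomial in
`n` variables are exactly the elements of the group algebra of `S_2n` whose coefficient function is
constant on the double cosets of the hyperoctahedral group `H_n`. Already the products of power sums
`p_μ = p_{μ_1} ⋯ p_{μ_l}` with `|μ| + l ≤ n` are enough.

The points `1, ..., 2n` are the elements `0, ..., 2n - 1` of `Fin (2 * n)`, so `J_k` is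
`jm ⟨k - 1, _⟩`, and the blocks `{2i - 1, 2i}` are the pairs `{2i, 2i + 1}`.

Proof. (1) `e_r(J_1, J_3, ...) P_n` is fixed by the generators of `H_n` from the left: this is a
computation with two neighbouring Jucys-Murphy elements, because the others commute with the
generator. The `x` such that `x P_n` is fixed form an algebra. (2) Call a block of
the points moved by `σ` if it is not a block of the image of the block system under `σ`. Each product
of transpositions in the expansion of `p_μ(J)` moves at most `|μ| + l` blocks, and if it moves so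
many then all the points used in it are in different blocks, so any two such products are conjugate
under `H_n`. On the other hand each double coset contains (by the marriage theorem) a permutation of
the first points of the blocks, and its cycle decomposition is such a product for some `μ`. So the
elements `p_μ(J) P_n` are triangular with respect to the number of moved blocks.
-/

set_option autoImplicit false

open Equiv Finset

namespace Pool.Agent.Results.MP_fb7f9c_al.OddJucysMurphy

/-- The group algebra of the symmetric group on `2 n` points. -/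
abbrev GroupAlgebra (n : ℕ) := MonoidAlgebra ℂ (Perm (Fin (2 * n)))

/-- The Jucys-Murphy element of the point `k`: the sum of the transpositions `(i k)`, `i < k`. -/
noncomputable def jm {n : ℕ} (k : Fin (2 * n)) : GroupAlgebra n :=
  ∑ i ∈ univ.filter (· < k), MonoidAlgebra.of ℂ (Perm (Fin (2 * n))) (swap i k)

/-- The first point of the block number `b`; `jm (first b)` is `J_{2b+1}`. -/
def first {n : ℕ} (b : Fin n) : Fin (2 * n) := ⟨2 * b.1, by have := b.2; omega⟩

/-- The involution `(1 2)(3 4)⋯(2n-1 2n)`. -/
def partner (n : ℕ) : Perm (Fin (2 * n)) where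
  toFun i := ⟨if i.1 % 2 = 0 then i.1 + 1 else i.1 - 1, by have := i.2; split_ifs <;> omega⟩
  invFun i := ⟨if i.1 % 2 = 0 then i.1 + 1 else i.1 - 1, by have := i.2; split_ifs <;> omega⟩
  left_inv i := by ext; dsimp only; split_ifs <;> omega
  right_inv i := by ext; dsimp only; split_ifs <;> omega

/-- The hyperoctahedral group: the centraliser of `(1 2)(3 4)⋯(2n-1 2n)`. -/
def hyperoctahedral (n : ℕ) : Subgroup (Perm (Fin (2 * n))) := Subgroup.centralizer {partner n}

open scoped Classical in
/-- The sum `P_n` of the elements of the hyperoctahedral group. -/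
noncomputable def hsum (n : ℕ) : GroupAlgebra n :=
  ∑ h ∈ univ.filter (· ∈ hyperoctahedral n), MonoidAlgebra.of ℂ (Perm (Fin (2 * n))) h

/-- The Hecke algebra of the Gelfand pair: the elements of the group algebra whose coefficient
function is constant on every double coset. -/
def hecke (n : ℕ) : Set (GroupAlgebra n) :=
  {x | ∀ g : Perm (Fin (2 * n)), ∀ h ∈ hyperoctahedral n, ∀ k ∈ hyperoctahedral n,
    x.coeff (h * g * k) = x.coeff g}

/-- The value `F(J_1, J_3, ..., J_{2n-1})` of a polynomial: each monomial is evaluated as an ordered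
product (the Jucys-Murphy elements commute). -/
noncomputable def evalOdd {n : ℕ} (F : MvPolynomial (Fin n) ℂ) : GroupAlgebra n :=
  ∑ α ∈ F.support, F.coeff α • (List.ofFn fun b => jm (first b) ^ α b).prod

open Pool.Agent.V8H85.OJM

/-- The identification of the points. -/
def pe (n : ℕ) : Pt n ≃ Fin (2 * n) where
  toFun x := ⟨2 * x.1.1 + (if x.2 then 1 else 0), by have := x.1.2; split_ifs <;> omega⟩
  invFun i := (⟨i.1 / 2, by have := i.2; omega⟩, decide (i.1 % 2 = 1))
  left_inv x := by
    rcases x with ⟨k, c⟩
    cases c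
    · refine Prod.ext (Fin.ext ?_) ?_
      · simp
      · simp
    · refine Prod.ext (Fin.ext ?_) ?_
      · simp; omega
      · simp
  right_inv i := by
    ext
    simp only [decide_eq_true_eq]
    split_ifs <;> omega

theorem pe_val {n : ℕ} (x : Pt n) : (pe n x).1 = 2 * x.1.1 + (if x.2 then 1 else 0) := rfl

theorem pe_first {n : ℕ} (b : Fin n) : pe n (b, false) = first b := rfl

theorem pe_s0 {n : ℕ} (x : Pt n) : pe n (s0 n x) = partner n (pe n x) := by
  rcases x with ⟨k, c⟩
  ext
  rw [s0_apply, pe_val]
  show _ = if (pe n (k, c)).1 % 2 = 0 then (pe n (k, c)).1 + 1 else (pe n (k, c)).1 - 1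
  rw [pe_val]
  cases c
  · simp
  · simp

/-- The identification of the groups. -/
def pg (n : ℕ) : G n ≃* Perm (Fin (2 * n)) := (pe n).permCongrHom

theorem pg_apply {n : ℕ} (g : G n) (x : Fin (2 * n)) : pg n g x = pe n (g ((pe n).symm x)) := rfl

theorem pg_swap {n : ℕ} (a b : Pt n) : pg n (swap a b) = swap (pe n a) (pe n b) := by
  have := Equiv.symm_trans_swap_trans a b (pe n)
  exact this

theorem mem_iff {n : ℕ} (g : G n) : pg n g ∈ hyperoctahedral n ↔ g ∈ Hn n := by
  unfold hyperoctahedral
  rw [Subgroup.mem_centralizer_singleton_iff, mem_H]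
  constructor
  · intro h x
    have h1 := congrArg (fun f : Perm (Fin (2 * n)) => f (pe n x)) h
    simp only [Perm.mul_apply, pg_apply, Equiv.symm_apply_apply, ← pe_s0] at h1
    exact ((pe n).injective h1)
  · intro h
    ext1 y
    obtain ⟨x, rfl⟩ := (pe n).surjective y
    rw [Perm.mul_apply, Perm.mul_apply, pg_apply, pg_apply, ← pe_s0, Equiv.symm_apply_apply,
      Equiv.symm_apply_apply, ← pe_s0, h x]

/-- The identification of the group algebras. -/
noncomputable def pa (n : ℕ) : A n ≃ₐ[ℂ] GroupAlgebra n := MonoidAlgebra.domCongr ℂ ℂ (pg n)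

theorem pa_e {n : ℕ} (g : G n) : pa n (e g) = MonoidAlgebra.of ℂ (Perm (Fin (2 * n))) (pg n g) := by
  unfold pa e
  rw [MonoidAlgebra.of_apply, MonoidAlgebra.domCongr_single, MonoidAlgebra.of_apply]

theorem pa_J {n : ℕ} (b : Fin n) : pa n (J b) = jm (first b) := by
  classical
  unfold J SS jm
  rw [map_sum]
  refine sum_equiv (pe n) (fun a => ?_) (fun a _ => ?_)
  · simp only [mem_filter, mem_univ, true_and]
    rw [Fin.lt_def, Fin.lt_def, pe_val]
    show a.1.1 < b.1 ↔ _ < 2 * b.1
    split_ifs <;> omega
  · rw [pa_e, pg_swap, pe_first]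

theorem pa_P (n : ℕ) : pa n (P n) = hsum n := by
  classical
  unfold P hsum
  rw [map_sum]
  refine sum_equiv (pg n).toEquiv (fun g => ?_) (fun g _ => pa_e g)
  simp only [mem_filter, mem_univ, true_and]
  exact (mem_iff g).symm

theorem pa_Phi {n : ℕ} (F : MvPolynomial (Fin n) ℂ) : pa n (Phi n F) = evalOdd F := by
  rw [Phi_eq, map_sum]
  unfold evalOdd
  refine sum_congr rfl fun α _ => ?_
  rw [map_smul, map_list_prod, List.map_ofFn]
  congr 3
  funext b
  rw [Function.comp_apply, map_pow, pa_J]

theorem pa_hecke {n : ℕ} (x : A n) : pa n x ∈ hecke n ↔ IsHecke x := by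
  have hc : ∀ g : G n, (pa n x).coeff (pg n g) = x.coeff g := by
    intro g
    unfold pa
    rw [MonoidAlgebra.coeff_domCongr, MulEquiv.symm_apply_apply]
  constructor
  · intro h g a ha b hb
    have h1 := h (pg n g) (pg n a) ((mem_iff a).2 ha) (pg n b) ((mem_iff b).2 hb)
    rwa [← map_mul, ← map_mul, hc, hc] at h1
  · intro h g a ha b hb
    obtain ⟨g, rfl⟩ := (pg n).surjective g
    obtain ⟨a, rfl⟩ := (pg n).surjective a
    obtain ⟨b, rfl⟩ := (pg n).surjective b
    rw [← map_mul, ← map_mul, hc, hc]
    exact h g a ((mem_iff a).1 ha) b ((mem_iff b).1 hb)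

/-- **Main theorem.** The odd Jucys-Murphy elements commute; the elements
`F(J_1, J_3, ..., J_{2n-1}) * P_n`, `F` symmetric, are exactly the elements of the Hecke algebra; and
the Hecke algebra is spanned by the elements `p_μ(J_1, J_3, ..., J_{2n-1}) * P_n` with `μ` a list
of positive integers such that the sum of the numbers `μ_i + 1` is at most `n`. -/
theorem result (n : ℕ) :
    (∀ b c : Fin n, jm (first b) * jm (first c) = jm (first c) * jm (first b)) ∧
    {x : GroupAlgebra n | ∃ F : MvPolynomial (Fin n) ℂ, F.IsSymmetric ∧ x = evalOdd F * hsum n} =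
      hecke n ∧
    (Submodule.span ℂ {x : GroupAlgebra n | ∃ μ : List ℕ, (∀ k ∈ μ, 1 ≤ k) ∧
      (μ.map (· + 1)).sum ≤ n ∧
      x = evalOdd (μ.map fun k => MvPolynomial.psum (Fin n) ℂ k).prod * hsum n} :
        Set (GroupAlgebra n)) = hecke n := by
  have hps : ∀ x : A n, IsHecke x → pa n x ∈ Submodule.span ℂ {x : GroupAlgebra n |
      ∃ μ : List ℕ, (∀ k ∈ μ, 1 ≤ k) ∧ (μ.map (· + 1)).sum ≤ n ∧
      x = evalOdd (μ.map fun k => MvPolynomial.psum (Fin n) ℂ k).prod * hsum n} := by
    intro x hx
    have h1 : PS n ≤ (Submodule.span ℂ {x : GroupAlgebra n |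
      ∃ μ : List ℕ, (∀ k ∈ μ, 1 ≤ k) ∧ (μ.map (· + 1)).sum ≤ n ∧
      x = evalOdd (μ.map fun k => MvPolynomial.psum (Fin n) ℂ k).prod * hsum n}).comap
        (pa n).toLinearMap := by
      unfold PS
      rw [Submodule.span_le]
      rintro y ⟨μ, hμ, rfl⟩
      refine Submodule.subset_span ⟨μ, hμ.1, hμ.2, ?_⟩
      show pa n (Phi n (psums n μ) * P n) = _
      rw [map_mul, pa_Phi, pa_P]
      rfl
    exact h1 (mem_PS hx)
  have himg : ∀ F : MvPolynomial (Fin n) ℂ, F.IsSymmetric → evalOdd F * hsum n ∈ hecke n := by
    intro F hF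
    rw [← pa_Phi, ← pa_P, ← map_mul, pa_hecke]
    exact isHecke_of (sym_mem_B hF)
  have hsub : ∀ x y : GroupAlgebra n, x ∈ hecke n → y ∈ hecke n → x + y ∈ hecke n := by
    intro x y hx hy g a ha b hb
    rw [MonoidAlgebra.coeff_add, Finsupp.add_apply, Finsupp.add_apply, hx g a ha b hb,
      hy g a ha b hb]
  refine ⟨fun b c => ?_, ?_, ?_⟩
  · rw [← pa_J, ← pa_J, ← map_mul, ← map_mul, J_comm]
  · ext x
    constructor
    · rintro ⟨F, hF, rfl⟩
      exact himg F hF
    · intro hx
      obtain ⟨y, rfl⟩ := (pa n).surjective x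
      obtain ⟨F, hF, rfl⟩ := PS_le (mem_PS ((pa_hecke y).1 hx))
      exact ⟨F, hF, by rw [map_mul, pa_Phi, pa_P]⟩
  · ext x
    constructor
    · intro hx
      have hx' := SetLike.mem_coe.1 hx
      induction hx' using Submodule.span_induction with
      | mem y hy =>
        obtain ⟨μ, -, -, rfl⟩ := hy
        exact himg _ (psums_symm μ)
      | zero =>
        intro g a ha b hb
        rfl
      | add y z hy hz h1 h2 => exact hsub _ _ (h1 hy) (h2 hz)
      | smul c y hy h1 =>
        intro g a ha b hb
        rw [MonoidAlgebra.coeff_smul_apply, MonoidAlgebra.coeff_smul_apply, h1 hy g a ha b hb]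
    · intro hx
      obtain ⟨y, rfl⟩ := (pa n).surjective x
      exact hps y ((pa_hecke y).1 hx)

end Pool.Agent.Results.MP_fb7f9c_al.OddJucysMurphy
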